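import Pool.Agent.R562.S3Main

/-!
# 3SUM: nondeterministic machines with slow heads which verify the absence of solutions

The input is a list of `n` distinct integers in `[-n ^ 3, n ^ 3]`, in any order, and a head reads a
whole integer in one step.  Nonuniform nondeterministic programs with `k` two-way heads, which move
by at most one position in a step, with at most `2 ^ S` configurations, which accept the lists
without three numbers with `a + b = c` within `T` steps and never accept a list with such numbers,
satisfy `k (S + 1) (k T + n) ^ 2 ≥ n ^ 3 / (8 * 10 ^ 6)`.  So with a bounded number of heads and with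
space `n ^ o(1)` they need time `n ^ (3 / 2 - o(1))`.
-/

set_option autoImplicit false

namespace Pool.Agent.Results.MP_13bec0_lc.NondeterministicSlowHeads

open Pool.Agent.TH457.HT Pool.Agent.R562.Ht

/-- Let `P` be a nondeterministic program with `k ≥ 1` two-way heads for words of `n` integers and
with at most `2 ^ S` configurations.  If each list of `n` distinct integers of absolute value at
most `n ^ 3` without three numbers with `a + b = c` is accepted by some computation of at most `T`
steps, and if no list with three such numbers is accepted by any computation, then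
`n ^ 3 ≤ 8 * 10 ^ 6 * k * (S + 1) * (k * T + n) ^ 2`. -/
theorem result (n k T S : ℕ) (P : HeadProg ℤ n k) (hk : 1 ≤ k)
    (hS : Fintype.card P.Q * n ^ k ≤ 2 ^ S)
    (hacc : ∀ x : Fin n → ℤ, Function.Injective x → (∀ i, |x i| ≤ (n : ℤ) ^ 3) →
      ¬ HasSum3 x → P.AcceptsIn T x)
    (hsound : ∀ x : Fin n → ℤ, Function.Injective x → (∀ i, |x i| ≤ (n : ℤ) ^ 3) →
      HasSum3 x → ¬ P.Accepts x) :
    n ^ 3 ≤ 8 * 10 ^ 6 * (k * (S + 1) * (k * T + n) ^ 2) :=
  s3_nd n P T S hk hS (fun x h1 h2 h3 h4 => hsound x h1 h2 h4 h3) hacc

end Pool.Agent.Results.MP_13bec0_lc.NondeterministicSlowHeads
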