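import Pool.Agent.R562.S3Main

/-!
# 3SUM: zero-error randomized machines with slow heads

The input is a list of `n` distinct integers in `[-n ^ 3, n ^ 3]`, in any order, and a head reads a
whole integer in one step.  Randomized nonuniform programs with `k` two-way heads, which move by at
most one position in a step, with at most `2 ^ S` configurations, which always find out correctly
whether there are three numbers with `a + b = c`, in an expected number of at most `T` steps,
satisfy `k (S + 1) (k T + n) ^ 2 ≥ n ^ 3 / (2 * 10 ^ 8)`.  So with a bounded number of heads and with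
space `n ^ o(1)` they need expected time `n ^ (3 / 2 - o(1))`, and with space
`n ^ (1 - 2 c - o(1))` expected time `n ^ (1 + c)`.

Proof. A value `u` of a zone of the first side is given by the number `16 u + 4`, a value `u` of a
zone of the second side by `16 u + 5`; the number `1` occurs, and all other numbers are congruent
to `7` modulo `16`.  So `a + b = c` is solvable iff some value occurs on both sides.  The numbers
have to be distinct, so the values on each side have to be distinct; the theorem on slow heads with
two sides (`Pool.Agent.R562.HtZ`) allows this, and it needs only about `n ^ 2` different values.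
-/

set_option autoImplicit false

namespace Pool.Agent.Results.MP_13bec0_lc.SlowHeads

open Pool.Agent.TH457.HT Pool.Agent.R562.Ht

open Classical in
/-- Let `p`, `P` be a random program with `k ≥ 1` two-way heads for words of `n` integers and with
at most `2 ^ S` configurations.  If on each list of `n` distinct integers of absolute value at most
`n ^ 3` it always gives the right answer to the question whether there are three numbers with
`a + b = c`, and if the expected number of steps is at most `T`, then
`n ^ 3 ≤ 2 * 10 ^ 8 * k * (S + 1) * (k * T + n) ^ 2`. -/
theorem result (n k T S : ℕ) (Ω : Type) [Fintype Ω] (p : Ω → ℝ)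
    (P : Ω → DetProg ℤ n k)
    (hp : ∀ ω, 0 ≤ p ω) (hp1 : ∑ ω, p ω = 1) (hk : 1 ≤ k)
    (hS : ∀ ω, Fintype.card (P ω).Q * n ^ k ≤ 2 ^ S)
    (h : ∀ x : Fin n → ℤ, Function.Injective x → (∀ i, |x i| ≤ (n : ℤ) ^ 3) →
      ∃ τ : Ω → ℕ, (∀ ω, (P ω).Answers (τ ω) x (decide (HasSum3 x))) ∧
        ∑ ω, p ω * τ ω ≤ T) :
    n ^ 3 ≤ 2 * 10 ^ 8 * (k * (S + 1) * (k * T + n) ^ 2) :=
  s3_zero n p hp hp1 P T S hk hS h

end Pool.Agent.Results.MP_13bec0_lc.SlowHeads
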